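import Pool.Agent.NTS.StmtsE

/-!
# NTS squad, row NNG: nonnegative coefficients
-/

set_option autoImplicit false

namespace Pool.Agent.NTS.H27

open Pool.Agent.PFS Pool.Agent.PFJ Pool.Agent.NTS

theorem nng : NngStmt := by
  intro n C h ι _ _ w hw c hx i
  by_contra hneg
  have hci : c i < 0 := not_le.mp hneg
  have hle : ∀ j, |c j| ≤ ∑ k, |c k| := fun j =>
    Finset.single_le_sum (f := fun k => |c k|) (fun k _ => abs_nonneg (c k)) (Finset.mem_univ j)
  have hA0 : 0 ≤ ∑ k, |c k| := Finset.sum_nonneg fun k _ => abs_nonneg _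
  have hsum : ∑ j, (-c i) • w j ∈ C := hw.pos (fun _ => -c i) (fun _ => by linarith)
  have he : ∑ j, (if j = i then (0 : ℝ) else (∑ k, |c k|) - c j) • w j ∈ closure C := by
    refine h.cl_sum fun j _ => h.cl_smul (PES.cl hw j) ?_
    split_ifs
    · exact le_refl _
    · have h1 := hle j
      have h2 := le_abs_self (c j)
      linarith
  have hall : ∑ j, (-c i) • w j + (∑ j, c j • w j +
      ∑ j, (if j = i then (0 : ℝ) else (∑ k, |c k|) - c j) • w j) ∈ C :=
    h.add_cl hsum (h.cl_add hx he)
  refine hw.bd (fun j => if j = i then (0 : ℝ) else (∑ k, |c k|) - c i) (fun j => ?_)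
    ⟨i, by simp⟩ ?_
  · show 0 ≤ (if j = i then (0 : ℝ) else (∑ k, |c k|) - c i)
    split_ifs
    · exact le_refl _
    · linarith
  · have heq : ∑ j, (if j = i then (0 : ℝ) else (∑ k, |c k|) - c i) • w j =
        ∑ j, (-c i) • w j + (∑ j, c j • w j +
          ∑ j, (if j = i then (0 : ℝ) else (∑ k, |c k|) - c j) • w j) := by
      rw [← Finset.sum_add_distrib, ← Finset.sum_add_distrib]
      refine Finset.sum_congr rfl fun j _ => ?_
      rw [← add_smul, ← add_smul]
      congr 1
      by_cases hj : j = i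
      · rw [hj]; simp
      · simp only [hj, if_false]; ring
    rw [heq]
    exact hall

end Pool.Agent.NTS.H27
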